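import Mathlib
import Pool.Agent.H399R2.Run
import Pool.Agent.H399R2.Abs

set_option autoImplicit false

open Pool.Agent.H399R2

namespace Pool.Agent.Results.MP_9227d9_nt.LongDescent

/-- Dichotomy for consecutive zeros `n < n'` of the recursion: either both `n'+1` and `n'+2m+1`
are prime, or the descent from `a(n+1) = (n+1)(n+2m+1)` to `a(n') = 0` took at most about three
fifths of the maximal possible time. -/
theorem result :
    ∀ m : ℕ, 1 ≤ m → ∀ a : ℕ → ℤ, a 1 = 4 * (m : ℤ) ^ 2 →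
      (∀ n : ℕ, 2 ≤ n →
        a n = |a (n - 1) - ((Int.gcd (a (n - 1)) ((n : ℤ) * ((n : ℤ) + 2 * (m : ℤ)))) : ℤ)|) →
      ∀ n n' : ℕ, 1 ≤ n → n < n' → a n = 0 → a n' = 0 → (∀ k : ℕ, n < k → k < n' → a k ≠ 0) →
        (Nat.Prime (n' + 1) ∧ Nat.Prime (n' + 2 * m + 1)) ∨
          5 * (n' - n - 1) < 3 * ((n + 1) * (n + 2 * m + 1)) + 2 * Nat.sqrt (n' + 2 * m + 1) := by
  intro m hm a ha1 ha n n' hn hnn' han han' hne
  set V : ℕ → ℤ := fun n => (n : ℤ) * ((n : ℤ) + 2 * (m : ℤ)) with hVdef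
  have hseg : Seg (fun k => (a k).natAbs) V (n + 1) n' :=
    seg_of_zeros (V := V) (by rw [ha1]; positivity) ha (by omega) (by omega)
      (fun k h1 h2 => hne k (by omega) h2)
  have hstart : (a (n + 1)).natAbs = (n + 1) * (n + 2 * m + 1) := by
    rw [ha (n + 1) (by omega), Nat.add_sub_cancel, han]
    simp only [Int.gcd_zero_left, zero_sub, abs_neg]
    rw [Nat.abs_cast, Int.natAbs_natCast]
    have : (((n + 1 : ℕ) : ℤ) * (((n + 1 : ℕ) : ℤ) + 2 * (m : ℤ)))
        = (((n + 1) * (n + 2 * m + 1) : ℕ) : ℤ) := by push_cast; ring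
    rw [this, Int.natAbs_natCast]
  obtain ⟨l, hsl, hle, hrun, hineq⟩ := hseg.final (by rw [han']; rfl) 1 le_rfl
    (by
      intro p hp k hk h
      rw [one_mul] at h
      have h2 : V (k + p) = V k + (p : ℤ) * (2 * k + p + 2 * m) := by
        simp only [hVdef]; push_cast; ring
      rw [h2] at h
      exact (Int.dvd_add_left (Dvd.intro _ rfl)).mp h)
    (by
      right
      refine ⟨0, ?_⟩
      intro k hk
      simp only [hVdef]
      constructor
      · intro h
        rcases (Int.prime_two.dvd_mul).mp h with h | h <;> omega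
      · intro h
        exact Dvd.dvd.mul_right (by omega) _)
  have key : ∀ p : ℕ, p.Prime → p ∣ (n' + 1) * (n' + 2 * m + 1) → n' - l < p := by
    intro p hp hdvd
    by_contra hcon
    push Not at hcon
    obtain ⟨h1, h2⟩ := hrun (n' - p) (by omega) (by have := hp.pos; omega)
    have h3 : (a (n' - p)).natAbs = p := by omega
    rw [h3] at h1
    have h4 : (p : ℤ) ∣ V (n' - p + 1) := by
      have e1 : V (n' - p + 1) = (((n' + 1) * (n' + 2 * m + 1) : ℕ) : ℤ)
          + (p : ℤ) * (p - 2 * n' - 2 - 2 * m) := by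
        simp only [hVdef]
        have : ((n' - p + 1 : ℕ) : ℤ) = (n' : ℤ) - p + 1 := by
          rw [Nat.cast_add, Nat.cast_sub (by omega)]; simp
        rw [this]; push_cast; ring
      rw [e1]
      exact dvd_add (Int.natCast_dvd_natCast.mpr hdvd) (Dvd.intro _ rfl)
    have h5 : (p : ℤ) ∣ (Int.gcd (p : ℤ) (V (n' - p + 1)) : ℤ) := Int.dvd_coe_gcd (dvd_refl _) h4
    rw [h1] at h5
    have h6 : p ∣ 1 := by exact_mod_cast h5
    exact hp.one_lt.ne' (Nat.dvd_one.mp h6)
  have fin : ∀ p : ℕ, p.Prime → p ∣ (n' + 1) * (n' + 2 * m + 1) → p ≤ Nat.sqrt (n' + 2 * m + 1) →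
      5 * (n' - n - 1) < 3 * ((n + 1) * (n + 2 * m + 1)) + 2 * Nat.sqrt (n' + 2 * m + 1) := by
    intro p hp h1 h2
    have h3 := key p hp h1
    rw [hstart] at hineq
    omega
  by_cases hp1 : Nat.Prime (n' + 1)
  · by_cases hp2 : Nat.Prime (n' + 2 * m + 1)
    · exact Or.inl ⟨hp1, hp2⟩
    · right
      apply fin (Nat.minFac (n' + 2 * m + 1)) (Nat.minFac_prime (by omega))
        (Dvd.dvd.mul_left (Nat.minFac_dvd _) _)
      rw [Nat.le_sqrt']
      exact Nat.minFac_sq_le_self (by omega) hp2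
  · right
    apply fin (Nat.minFac (n' + 1)) (Nat.minFac_prime (by omega))
      (Dvd.dvd.mul_right (Nat.minFac_dvd _) _)
    rw [Nat.le_sqrt']
    exact (Nat.minFac_sq_le_self (by omega) hp1).trans (by omega)

end Pool.Agent.Results.MP_9227d9_nt.LongDescent
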