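import Mathlib
import Pool.Agent.H399R2.Zeros

set_option autoImplicit false

open Pool.Agent.H399R2

namespace Pool.Agent.Results.MP_9227d9_nt.ZerosInfinite

/-- Part (ii): for every `m ≥ 1` the sequence vanishes infinitely often; more precisely it has a
zero at some index at most `4m²+1`, and each zero `n` is followed by another zero at some index at
most `(n+1)(n+2m+2)`. -/
theorem result :
    ∀ m : ℕ, 1 ≤ m → ∀ a : ℕ → ℤ, a 1 = 4 * (m : ℤ) ^ 2 →
      (∀ n : ℕ, 2 ≤ n →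
        a n = |a (n - 1) - ((Int.gcd (a (n - 1)) ((n : ℤ) * ((n : ℤ) + 2 * (m : ℤ)))) : ℤ)|) →
      (∃ n : ℕ, 1 ≤ n ∧ n ≤ 4 * m ^ 2 + 1 ∧ a n = 0) ∧
      (∀ n : ℕ, 1 ≤ n → a n = 0 →
        ∃ n' : ℕ, n < n' ∧ n' ≤ (n + 1) * (n + 2 * m + 2) ∧ a n' = 0) := by
  intro m hm a ha1 ha
  have h1 : 0 ≤ a 1 := by rw [ha1]; positivity
  set V : ℕ → ℤ := fun n => (n : ℤ) * ((n : ℤ) + 2 * (m : ℤ)) with hVdef
  refine ⟨?_, ?_⟩
  · obtain ⟨e, he1, he2, he3⟩ := exists_zero (V := V) h1 ha (s := 1) le_rfl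
    refine ⟨e, he1, ?_, he3⟩
    have : (a 1).natAbs = 4 * m ^ 2 := by
      rw [ha1]
      have : (4 * (m : ℤ) ^ 2) = ((4 * m ^ 2 : ℕ) : ℤ) := by push_cast; ring
      rw [this, Int.natAbs_natCast]
    omega
  · intro n hn han
    obtain ⟨e, he1, he2, he3⟩ := exists_zero (V := V) h1 ha (s := n + 1) (by omega)
    refine ⟨e, by omega, ?_, he3⟩
    have hstart : (a (n + 1)).natAbs = (n + 1) * (n + 2 * m + 1) := by
      rw [ha (n + 1) (by omega), Nat.add_sub_cancel, han]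
      simp only [Int.gcd_zero_left, zero_sub, abs_neg]
      rw [Nat.abs_cast, Int.natAbs_natCast]
      have : (((n + 1 : ℕ) : ℤ) * (((n + 1 : ℕ) : ℤ) + 2 * (m : ℤ)))
          = (((n + 1) * (n + 2 * m + 1) : ℕ) : ℤ) := by push_cast; ring
      rw [this, Int.natAbs_natCast]
    rw [hstart] at he2
    calc e ≤ n + 1 + (n + 1) * (n + 2 * m + 1) := he2
      _ = (n + 1) * (n + 2 * m + 2) := by ring

end Pool.Agent.Results.MP_9227d9_nt.ZerosInfinite
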